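import Pool.Agent.PQP.StmtsV

/-!
# Squad PQP, row NOC: balanced solutions do not concentrate
-/

set_option autoImplicit false

open scoped InnerProductSpace Topology ContDiff Manifold
open MeasureTheory Filter Set

noncomputable section

namespace Pool.Agent.PQP.H31

open Pool.Agent.Helper42_Paneitz Pool.Agent.Helper82_Vir Pool.Agent.FLX

theorem norm_S (x : S4) : ‖(x : E5)‖ = 1 := norm_eq_of_mem_sphere x

theorem norm_sub_sq_S (x y : S4) :
    ‖(x : E5) - (y : E5)‖ ^ 2 = 2 * (1 - ⟪(x : E5), (y : E5)⟫_ℝ) := by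
  rw [norm_sub_sq_real, norm_S, norm_S]
  ring

theorem norm_add_sq_S (x y : S4) :
    ‖(x : E5) + (y : E5)‖ ^ 2 = 2 * (1 + ⟪(x : E5), (y : E5)⟫_ℝ) := by
  rw [norm_add_sq_real, norm_S, norm_S]
  ring

theorem abs_inner_S (x y : S4) : |⟪(x : E5), (y : E5)⟫_ℝ| ≤ 1 := by
  have h := abs_real_inner_le_norm (x : E5) (y : E5)
  rwa [norm_S, norm_S, one_mul] at h

/-- the tangential part of a unit vector -/
theorem norm_tan (z x : S4) : ‖(z : E5) - ⟪(z : E5), (x : E5)⟫_ℝ • (x : E5)‖ ≤ 1 := by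
  have h : ‖(z : E5) - ⟪(z : E5), (x : E5)⟫_ℝ • (x : E5)‖ ^ 2 =
      1 - ⟪(z : E5), (x : E5)⟫_ℝ ^ 2 := by
    rw [norm_sub_sq_real, norm_smul, norm_S, norm_S, real_inner_smul_right, Real.norm_eq_abs,
      mul_one, sq_abs]
    ring
  have h1 : ‖(z : E5) - ⟪(z : E5), (x : E5)⟫_ℝ • (x : E5)‖ ^ 2 ≤ 1 := by
    rw [h]
    nlinarith [sq_nonneg ⟪(z : E5), (x : E5)⟫_ℝ]
  by_contra hcon
  push Not at hcon
  nlinarith

theorem exists_dir (b : E5) : ∃ w : S4, b = ‖b‖ • (w : E5) := by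
  by_cases hb : b = 0
  · refine ⟨⟨EuclideanSpace.single 0 1, by simp⟩, ?_⟩
    rw [hb, norm_zero, zero_smul]
  · refine ⟨⟨‖b‖⁻¹ • b, normalize_mem hb⟩, ?_⟩
    show b = ‖b‖ • (‖b‖⁻¹ • b)
    rw [smul_smul, mul_inv_cancel₀ (norm_ne_zero_iff.2 hb), one_smul]

/-- the denominator of the gradient bound -/
theorem denom_ge {b : E5} (hb : ‖b‖ < 1) {w : S4} (hw : b = ‖b‖ • (w : E5)) (x : S4) :
    (1 + ⟪(w : E5), (x : E5)⟫_ℝ) / 2 ≤ 1 + ⟪b, (x : E5)⟫_ℝ := by
  have h1 : ⟪b, (x : E5)⟫_ℝ = ‖b‖ * ⟪(w : E5), (x : E5)⟫_ℝ := by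
    conv_lhs => rw [hw]
    rw [real_inner_smul_left]
  obtain ⟨h2, h3⟩ := abs_le.1 (abs_inner_S w x)
  have h4 := norm_nonneg b
  rw [h1]
  nlinarith [mul_nonneg (sub_nonneg.2 h3) (sub_nonneg.2 hb.le),
    mul_nonneg (by linarith : (0 : ℝ) ≤ 1 + ⟪(w : E5), (x : E5)⟫_ℝ) h4]

theorem mas_nonneg {h : S4 → ℝ} (hd : Dens h) (z : S4) (u : ℝ) : 0 ≤ mas h z u :=
  integral_nonneg fun y => (hd.2.1 y).le

theorem dens_int {h : S4 → ℝ} (hd : Dens h) : Integrable h sig := by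
  by_contra hn
  have h1 := hd.2.2
  rw [integral_undef hn] at h1
  exact zero_ne_one h1

theorem mas_mono {h : S4 → ℝ} (hd : Dens h) {z z' : S4} {u u' : ℝ} (hs : cap z u ⊆ cap z' u') :
    mas h z u ≤ mas h z' u' :=
  setIntegral_mono_set (dens_int hd).integrableOn
    (Filter.Eventually.of_forall fun y => (hd.2.1 y).le) hs.eventuallyLE

/-- the mass of a small cap from the cutoff inequality -/
theorem mas_le {h : S4 → ℝ} (hd : Dens h) (hb : Bal h) (blm : BlmStmt) {z : S4} {r R E : ℝ}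
    (hR0 : 0 ≤ R) (hR : R ≤ 1 / 2) (hE : mas h z r * (1 - mas h z R) ≤ E) :
    mas h z r ≤ 3 * E := by
  have h1 := blm h z R hd hb hR0 (by linarith)
  have h2 : 1 / (2 - R) ≤ 2 / 3 := by
    rw [div_le_div_iff₀ (by linarith) (by norm_num)]
    linarith
  have h3 := mas_nonneg hd z r
  nlinarith

/-- NOC -/
theorem noc (cov : CovStmt) (lipb : LipbStmt) (cut : CutStmt) (blm : BlmStmt) : NocStmt := by
  intro ε hε
  obtain ⟨C, hC, hcut⟩ := cut
  set s : ℝ := Real.exp (-(6 * C / ε + 1)) with hs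
  have hs0 : 0 < s := Real.exp_pos _
  have hlog : Real.log (1 / s) = 6 * C / ε + 1 := by
    rw [one_div, Real.log_inv, hs, Real.log_exp, neg_neg]
  have hCe : 0 < 6 * C / ε := by positivity
  have hs1 : s ≤ 1 / 2 := by
    have h1 : s ≤ Real.exp (-1) := Real.exp_le_exp.2 (by linarith)
    have h2 : Real.exp (-1) ≤ 1 / 2 := by
      rw [Real.exp_neg, one_div]
      apply inv_anti₀ (by norm_num)
      have := Real.add_one_le_exp (1 : ℝ)
      linarith
    exact h1.trans h2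
  have hfrac : 3 * (C * (1 / Real.log (1 / s))) ≤ ε / 2 := by
    rw [hlog]
    have h1 : 1 / (6 * C / ε + 1) ≤ 1 / (6 * C / ε) :=
      one_div_le_one_div_of_le hCe (by linarith)
    have h2 : C * (1 / (6 * C / ε)) = ε / 6 := by
      field_simp
    nlinarith [mul_le_mul_of_nonneg_left h1 hC.le]
  set r₁ : ℝ := s / 2 with hr₁
  have hr₁0 : 0 < r₁ := by positivity
  have hr₁1 : r₁ ≤ 1 / 4 := by
    rw [hr₁]
    linarith
  set θ : ℝ := ε * r₁ / (384 * C) with hθ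
  have hθ0 : 0 < θ := by positivity
  have hθ1 : 3 * (C * (64 * θ / r₁)) = ε / 2 := by
    rw [hθ]
    field_simp
    norm_num
  refine ⟨r₁ / 16 * s, θ, by positivity, by nlinarith, hθ0, ?_⟩
  intro W f G b hW hf hb hbal hG z
  obtain ⟨hc1, hc2, -, -⟩ := cov b hb
  have hsol := hc2 W f hf
  have hd : Dens (pull b f) := hc1 f hf.1
  obtain ⟨-, hl⟩ := lipb W G hW
  obtain ⟨hV, hVpos, hgr⟩ := hl b hb
  obtain ⟨w, hw⟩ := exists_dir b
  have hgrad : ∀ (x y : S4) (δ : ℝ), 0 < δ → δ ≤ 1 + ⟪(w : E5), (x : E5)⟫_ℝ →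
      |dlog (fun x => W (mob b x)) x ((y : E5) - ⟪(y : E5), (x : E5)⟫_ℝ • (x : E5))| ≤
        4 * θ / δ := by
    intro x y δ hδ hx
    have h1 := denom_ge hb hw x
    have h2 : δ / 2 ≤ 1 + ⟪b, (x : E5)⟫_ℝ := by linarith
    have h3 : 0 < 1 + ⟪b, (x : E5)⟫_ℝ := by linarith
    have h4 := norm_tan y x
    have h5 := norm_nonneg ((y : E5) - ⟪(y : E5), (x : E5)⟫_ℝ • (x : E5))
    refine (hgr x _).trans ?_
    have h6 : 2 * G * sq b / (1 + ⟪b, (x : E5)⟫_ℝ) ≤ 4 * θ / δ := by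
      have h7 : 2 * G * sq b / (1 + ⟪b, (x : E5)⟫_ℝ) ≤ 2 * θ / (1 + ⟪b, (x : E5)⟫_ℝ) := by
        apply div_le_div_of_nonneg_right _ h3.le
        nlinarith
      have h8 : 2 * θ / (1 + ⟪b, (x : E5)⟫_ℝ) ≤ 2 * θ / (δ / 2) :=
        div_le_div_of_nonneg_left (by positivity) (by positivity) h2
      have h9 : 2 * θ / (δ / 2) = 4 * θ / δ := by
        field_simp
        norm_num
      rw [← h9]
      exact h7.trans h8
    calc 2 * G * sq b / (1 + ⟪b, (x : E5)⟫_ℝ) *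
          ‖(y : E5) - ⟪(y : E5), (x : E5)⟫_ℝ • (x : E5)‖
        ≤ 4 * θ / δ * ‖(y : E5) - ⟪(y : E5), (x : E5)⟫_ℝ • (x : E5)‖ :=
          mul_le_mul_of_nonneg_right h6 h5
      _ ≤ 4 * θ / δ * 1 := mul_le_mul_of_nonneg_left h4 (by positivity)
      _ = 4 * θ / δ := mul_one _
  by_cases hz : 1 + ⟪(w : E5), (z : E5)⟫_ℝ ≤ r₁ / 4
  · -- the cap is contained in the cap around `-w`
    have hsub : cap z (r₁ / 16 * s) ⊆ cap (-w) r₁ := by
      intro y hy
      have hy' : 1 - ⟪(z : E5), (y : E5)⟫_ℝ ≤ r₁ / 16 * s := hy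
      show 1 - ⟪((-w : S4) : E5), (y : E5)⟫_ℝ ≤ r₁
      rw [coe_neg_sphere, inner_neg_left]
      have h1 : ‖(z : E5) - (y : E5)‖ ^ 2 ≤ r₁ / 2 := by
        rw [norm_sub_sq_S]
        nlinarith
      have h2 : ‖(w : E5) + (z : E5)‖ ^ 2 ≤ r₁ / 2 := by
        rw [norm_add_sq_S]
        linarith
      have h3 : ‖(w : E5) + (y : E5)‖ ≤ ‖(w : E5) + (z : E5)‖ + ‖(z : E5) - (y : E5)‖ := by
        have h4 : (w : E5) + (y : E5) = ((w : E5) + (z : E5)) - ((z : E5) - (y : E5)) := by abel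
        rw [h4]
        exact norm_sub_le _ _
      have h5 : ‖(w : E5) + (y : E5)‖ ^ 2 ≤ 2 * r₁ := by
        have h6 := norm_nonneg ((w : E5) + (y : E5))
        have h7 : ‖(w : E5) + (y : E5)‖ ^ 2 ≤
            (‖(w : E5) + (z : E5)‖ + ‖(z : E5) - (y : E5)‖) ^ 2 := pow_le_pow_left₀ h6 h3 2
        nlinarith [sq_nonneg (‖(w : E5) + (z : E5)‖ - ‖(z : E5) - (y : E5)‖)]
      rw [norm_add_sq_S] at h5
      linarith
    refine (mas_mono hd hsub).trans ?_
    have h1 := hcut (fun x => W (mob b x)) (pull b f) (-w) r₁ (1 / 2) (4 * θ / r₁) hV hVpos hsol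
      hr₁0 (by linarith) (by norm_num) (by positivity)
      (Or.inr fun x hx => by
        rw [coe_neg_sphere, inner_neg_left] at hx
        have h2 := hgrad x (-w) r₁ hr₁0 (by linarith)
        exact h2)
    have h2 := mas_le hd hbal blm (by norm_num : (0 : ℝ) ≤ 1 / 2) le_rfl h1
    refine h2.trans ?_
    have h3 : (1 / 2 : ℝ) / r₁ = 1 / s := by
      rw [hr₁]
      field_simp
    have h4 : C * (4 * θ / r₁) ≤ C * (64 * θ / r₁) := by
      apply mul_le_mul_of_nonneg_left _ hC.le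
      apply div_le_div_of_nonneg_right _ hr₁0.le
      linarith
    rw [h3]
    nlinarith
  · -- away from `-w`
    push Not at hz
    have h1 := hcut (fun x => W (mob b x)) (pull b f) z (r₁ / 16 * s) (r₁ / 16) (64 * θ / r₁)
      hV hVpos hsol (by positivity) (by nlinarith) (by linarith) (by positivity)
      (Or.inl fun x hx => by
        have h2 : r₁ / 16 ≤ 1 + ⟪(w : E5), (x : E5)⟫_ℝ := by
          have h3 : ‖(z : E5) - (x : E5)‖ ^ 2 ≤ r₁ / 8 := by
            rw [norm_sub_sq_S]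
            linarith
          have h4 : r₁ / 2 ≤ ‖(w : E5) + (z : E5)‖ ^ 2 := by
            rw [norm_add_sq_S]
            linarith
          have h5 : ‖(w : E5) + (z : E5)‖ ≤ ‖(w : E5) + (x : E5)‖ + ‖(z : E5) - (x : E5)‖ := by
            have h6 : (w : E5) + (z : E5) = ((w : E5) + (x : E5)) + ((z : E5) - (x : E5)) := by
              abel
            rw [h6]
            exact norm_add_le _ _
          have h7 : r₁ / 8 ≤ ‖(w : E5) + (x : E5)‖ ^ 2 := by
            by_contra hcon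
            push Not at hcon
            have h8 := norm_nonneg ((w : E5) + (x : E5))
            have h9 := norm_nonneg ((z : E5) - (x : E5))
            have h10 : ‖(w : E5) + (z : E5)‖ ^ 2 ≤
                (‖(w : E5) + (x : E5)‖ + ‖(z : E5) - (x : E5)‖) ^ 2 :=
              pow_le_pow_left₀ (norm_nonneg _) h5 2
            nlinarith [sq_nonneg (‖(w : E5) + (x : E5)‖ - ‖(z : E5) - (x : E5)‖)]
          rw [norm_add_sq_S] at h7
          linarith
        have h3 := hgrad x z (r₁ / 16) (by positivity) h2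
        have h4 : 4 * θ / (r₁ / 16) = 64 * θ / r₁ := by
          field_simp
          norm_num
        rw [h4] at h3
        exact h3)
    have h2 := mas_le hd hbal blm (by positivity : (0 : ℝ) ≤ r₁ / 16) (by linarith) h1
    refine h2.trans ?_
    have h3 : r₁ / 16 / (r₁ / 16 * s) = 1 / s := by
      field_simp
    rw [h3]
    nlinarith

end Pool.Agent.PQP.H31
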